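import Mathlib
import Pool.Agent.TH841.SH.ShaDef

/-!
# The Tate-Shafarevich group of a product of elliptic curves over `ℚ`

`Ш(A) = ker (H¹(ℚ, A) → ∏ H¹(ℚ_v, A))` for the abelian variety `A = W 1 × ... × W N`, with
continuous cocycles of the absolute Galois groups.
-/

set_option autoImplicit false

namespace Pool.Agent.U213.SM

open WeierstrassCurve
open Pool.Agent.TH841.SH.D

section

variable {k : Type} [Field k] {N : ℕ}

/-- the points of the product of the curves `W i` over the field `L` -/
def PtP (W : Fin N → WeierstrassCurve k) (L : Type) [Field L] [Algebra k L] : Type :=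
  ∀ i, Pt (W i) L

/-- the group law on the points -/
noncomputable instance PtP.group (W : Fin N → WeierstrassCurve k) (L : Type) [Field L]
    [Algebra k L] : AddCommGroup (PtP W L) :=
  @Pi.addCommGroup (Fin N) (fun i => Pt (W i) L) (fun i => Pt.group (W i) L)

/-- the map on points given by a homomorphism of fields -/
noncomputable def actP (W : Fin N → WeierstrassCurve k) {F L : Type} [Field F] [Field L]
    [Algebra k F] [Algebra k L] (φ : F →ₐ[k] L) : PtP W F →+ PtP W L where
  toFun := fun P i => act (W i) φ (P i)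
  map_zero' := funext fun i => (act (W i) φ).map_zero
  map_add' := fun P Q => funext fun i => (act (W i) φ).map_add (P i) (Q i)

/-- functions on the absolute Galois group with values in the points over the algebraic closure -/
def CochP (W : Fin N → WeierstrassCurve k) : Type := Gal k → PtP W (AlgebraicClosure k)

/-- the group of the functions -/
noncomputable instance CochP.group (W : Fin N → WeierstrassCurve k) : AddCommGroup (CochP W) :=
  @Pi.addCommGroup (Gal k) (fun _ => PtP W (AlgebraicClosure k)) (fun _ => PtP.group W _)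

/-- `f` is a continuous cocycle: `f (σ τ) = f σ + σ (f τ)` -/
def IsCocP (W : Fin N → WeierstrassCurve k) (f : CochP W) : Prop :=
  IsLocallyConstant f ∧ ∀ σ τ : Gal k, f (σ * τ) = f σ + actP W σ.toAlgHom (f τ)

/-- `f` is a coboundary: `f σ = σ P - P` -/
def IsCobP (W : Fin N → WeierstrassCurve k) (f : CochP W) : Prop :=
  ∃ P : PtP W (AlgebraicClosure k), ∀ σ : Gal k, f σ = actP W σ.toAlgHom P - P

/-- for every embedding of the algebraic closures the restriction of `f` to the absolute Galois
group of `K ⊇ k` is a coboundary -/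
def LocTrivP (W : Fin N → WeierstrassCurve k) (K : Type) [Field K] [Algebra k K]
    (f : CochP W) : Prop :=
  ∀ ι : AlgebraicClosure k →ₐ[k] AlgebraicClosure K, ∃ P : PtP W (AlgebraicClosure K),
    ∀ (τ : Gal K) (σ : Gal k), (∀ x, τ (ι x) = ι (σ x)) →
      actP W ι (f σ) = actP W (τ.toAlgHom.restrictScalars k) P - P

/-- the component -/
def cmp {W : Fin N → WeierstrassCurve k} (f : CochP W) (i : Fin N) : Coch (W i) := fun σ => f σ i

lemma isCocP_iff (W : Fin N → WeierstrassCurve k) (f : CochP W) :
    IsCocP W f ↔ ∀ i, IsCoc (W i) (cmp f i) := by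
  constructor
  · rintro ⟨h1, h2⟩ i
    exact ⟨h1.comp (fun P : PtP W (AlgebraicClosure k) => P i),
      fun σ τ => congrFun (h2 σ τ) i⟩
  · intro h
    refine ⟨(IsLocallyConstant.iff_eventually_eq
      (f : Gal k → PtP W (AlgebraicClosure k))).2 fun σ => ?_,
      fun σ τ => funext fun i => (h i).2 σ τ⟩
    have h3 : ∀ i, ∀ᶠ τ in nhds σ, cmp f i τ = cmp f i σ := fun i =>
      (IsLocallyConstant.iff_eventually_eq
        (cmp f i : Gal k → Pt (W i) (AlgebraicClosure k))).1 (h i).1 σ
    filter_upwards [Filter.eventually_all.2 h3] with τ hτ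
    exact funext fun i => hτ i

lemma isCobP_iff (W : Fin N → WeierstrassCurve k) (f : CochP W) :
    IsCobP W f ↔ ∀ i, IsCob (W i) (cmp f i) := by
  constructor
  · rintro ⟨P, hP⟩ i
    exact ⟨P i, fun σ => congrFun (hP σ) i⟩
  · intro h
    choose P hP using h
    exact ⟨P, fun σ => funext fun i => hP i σ⟩

lemma locTrivP_iff (W : Fin N → WeierstrassCurve k) (K : Type) [Field K] [Algebra k K]
    (f : CochP W) : LocTrivP W K f ↔ ∀ i, LocTriv (W i) K (cmp f i) := by
  constructor
  · intro h i ι
    obtain ⟨P, hP⟩ := h ι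
    exact ⟨P i, fun τ σ hτ => congrFun (hP τ σ hτ) i⟩
  · intro h ι
    choose P hP using fun i => h i ι
    exact ⟨P, fun τ σ hτ => funext fun i => hP i τ σ hτ⟩

/-- the group of the coboundaries -/
def cobP (W : Fin N → WeierstrassCurve k) : AddSubgroup (CochP W) where
  carrier := {f | IsCobP W f}
  zero_mem' := (isCobP_iff W 0).2 fun i => cob_zero (W i)
  add_mem' := fun {f g} hf hg => (isCobP_iff W (f + g)).2 fun i =>
    cob_add ((isCobP_iff W f).1 hf i) ((isCobP_iff W g).1 hg i)
  neg_mem' := fun {f} hf => (isCobP_iff W (-f)).2 fun i => cob_neg ((isCobP_iff W f).1 hf i)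

end

variable {N : ℕ}

/-- a continuous cocycle that is locally trivial at all the places of `ℚ` -/
def IsShaCocP (W : Fin N → WeierstrassCurve ℚ) (f : CochP W) : Prop :=
  IsCocP W f ∧ (∀ (p : ℕ) [Fact p.Prime], LocTrivP W ℚ_[p] f) ∧ LocTrivP W ℝ f

lemma isShaCocP_iff (W : Fin N → WeierstrassCurve ℚ) (f : CochP W) :
    IsShaCocP W f ↔ ∀ i, IsShaCoc (W i) (cmp f i) := by
  constructor
  · rintro ⟨h1, h2, h3⟩ i
    exact ⟨(isCocP_iff W f).1 h1 i, fun p _ => (locTrivP_iff W _ f).1 (h2 p) i,
      (locTrivP_iff W _ f).1 h3 i⟩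
  · intro h
    exact ⟨(isCocP_iff W f).2 fun i => (h i).1, fun p _ => (locTrivP_iff W _ f).2 fun i =>
      (h i).2.1 p, (locTrivP_iff W _ f).2 fun i => (h i).2.2⟩

/-- the group of the continuous cocycles that are locally trivial at all the places of `ℚ` -/
def shaCocP (W : Fin N → WeierstrassCurve ℚ) : AddSubgroup (CochP W) where
  carrier := {f | IsShaCocP W f}
  zero_mem' := (isShaCocP_iff W 0).2 fun i => sha_zero (W i)
  add_mem' := fun {f g} hf hg => (isShaCocP_iff W (f + g)).2 fun i =>
    sha_add ((isShaCocP_iff W f).1 hf i) ((isShaCocP_iff W g).1 hg i)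
  neg_mem' := fun {f} hf => (isShaCocP_iff W (-f)).2 fun i =>
    sha_neg ((isShaCocP_iff W f).1 hf i)

/-- the Tate-Shafarevich group of the abelian variety `W 1 × ... × W N` over `ℚ` -/
def ShaP (W : Fin N → WeierstrassCurve ℚ) : Type :=
  shaCocP W ⧸ (cobP W).addSubgroupOf (shaCocP W)

/-- the group law on the Tate-Shafarevich group -/
noncomputable instance ShaP.group (W : Fin N → WeierstrassCurve ℚ) : AddCommGroup (ShaP W) :=
  @QuotientAddGroup.Quotient.addCommGroup (shaCocP W) _ ((cobP W).addSubgroupOf (shaCocP W))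

/-- the elements killed by `n` -/
def ShaTorP (W : Fin N → WeierstrassCurve ℚ) (n : ℕ) : Type := {x : ShaP W // n • x = 0}

/-- the rank of the group of the rational points of `W 1 × ... × W N` -/
noncomputable def rkP (W : Fin N → WeierstrassCurve ℚ) : ℕ := ∑ i, rk (W i)

/-- `2 ^ rank A(ℚ) * #Ш(A/ℚ)[2]` for `A = W 1 × ... × W N` -/
noncomputable def MP (W : Fin N → WeierstrassCurve ℚ) : ℕ :=
  2 ^ rkP W * Nat.card (ShaTorP W 2)

end Pool.Agent.U213.SM
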