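import Pool.Agent.U213.SM.Defs
import Pool.Agent.U213.SM.ProdDef

/-!
# The Tate-Shafarevich group of a product of elliptic curves is the product
-/

set_option autoImplicit false

namespace Pool.Agent.U213.SM

open Pool.Agent.TH841.SH.D

variable {N : ℕ}

/-- the class of a component -/
noncomputable def toSha (W : Fin N → WeierstrassCurve ℚ) : shaCocP W →+ (∀ i, Sha (W i)) where
  toFun := fun c i => (QuotientAddGroup.mk' ((cob (W i)).addSubgroupOf (shaCoc (W i))))
    ⟨cmp c.1 i, (isShaCocP_iff W c.1).1 c.2 i⟩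
  map_zero' := funext fun i =>
    (QuotientAddGroup.mk' ((cob (W i)).addSubgroupOf (shaCoc (W i)))).map_zero
  map_add' := fun c d => funext fun i =>
    (QuotientAddGroup.mk' ((cob (W i)).addSubgroupOf (shaCoc (W i)))).map_add
      ⟨cmp c.1 i, (isShaCocP_iff W c.1).1 c.2 i⟩ ⟨cmp d.1 i, (isShaCocP_iff W d.1).1 d.2 i⟩

lemma toSha_surj (W : Fin N → WeierstrassCurve ℚ) : Function.Surjective (toSha W) := by
  intro x
  have h : ∀ i, ∃ c : shaCoc (W i),
      (QuotientAddGroup.mk' ((cob (W i)).addSubgroupOf (shaCoc (W i)))) c = x i := fun i =>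
    QuotientAddGroup.mk'_surjective _ (x i)
  choose c hc using h
  refine ⟨⟨fun σ i => (c i).1 σ, (isShaCocP_iff W _).2 fun i => (c i).2⟩, ?_⟩
  exact funext fun i => hc i

lemma toSha_ker (W : Fin N → WeierstrassCurve ℚ) :
    (toSha W).ker = (cobP W).addSubgroupOf (shaCocP W) := by
  ext c
  rw [AddMonoidHom.mem_ker, AddSubgroup.mem_addSubgroupOf]
  constructor
  · intro h
    refine (isCobP_iff W c.1).2 fun i => ?_
    have h2 := (QuotientAddGroup.eq_zero_iff
      (N := (cob (W i)).addSubgroupOf (shaCoc (W i)))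
      ⟨cmp c.1 i, (isShaCocP_iff W c.1).1 c.2 i⟩).1 (congrFun h i)
    exact (AddSubgroup.mem_addSubgroupOf.1 h2)
  · intro h
    refine funext fun i => ?_
    refine (QuotientAddGroup.eq_zero_iff
      (N := (cob (W i)).addSubgroupOf (shaCoc (W i)))
      ⟨cmp c.1 i, (isShaCocP_iff W c.1).1 c.2 i⟩).2 ?_
    exact AddSubgroup.mem_addSubgroupOf.2 ((isCobP_iff W c.1).1 h i)

/-- the Tate-Shafarevich group of the product -/
noncomputable def eP (W : Fin N → WeierstrassCurve ℚ) : ShaP W ≃+ (∀ i, Sha (W i)) :=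
  (QuotientAddGroup.quotientAddEquivOfEq (toSha_ker W).symm).trans
    (QuotientAddGroup.quotientKerEquivOfSurjective (toSha W) (toSha_surj W))

/-- the elements killed by `n` -/
noncomputable def eTorP (W : Fin N → WeierstrassCurve ℚ) (n : ℕ) :
    ShaTorP W n ≃ (∀ i, ShaTor (W i) n) where
  toFun := fun x i => ⟨eP W x.1 i, by
    have h := congrFun (map_nsmul (eP W) n x.1) i
    rw [x.2, map_zero] at h
    exact h.symm⟩
  invFun := fun y => ⟨(eP W).symm fun i => (y i).1, by
    rw [← map_nsmul]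
    have h : (n • fun i => (y i).1 : ∀ i, Sha (W i)) = 0 := funext fun i => (y i).2
    rw [h, map_zero]⟩
  left_inv := fun x => Subtype.ext ((eP W).symm_apply_apply x.1)
  right_inv := fun y => funext fun i => Subtype.ext
    (congrFun ((eP W).apply_symm_apply fun i => (y i).1) i)

theorem MP_eq (W : Fin N → WeierstrassCurve ℚ) : MP W = ∏ i, M (W i) := by
  unfold MP M rkP
  rw [Nat.card_congr (eTorP W 2), Nat.card_pi, Finset.prod_mul_distrib,
    Finset.prod_pow_eq_pow_sum]

theorem finite_torP (W : Fin N → WeierstrassCurve ℚ) (n : ℕ)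
    (h : ∀ i, Finite (ShaTor (W i) n)) : Finite (ShaTorP W n) :=
  Finite.of_equiv _ (eTorP W n).symm

end Pool.Agent.U213.SM
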