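import Mathlib
import Pool.Agent.TH841.SH.ShaDef

/-!
# One-parameter families of elliptic curves with full 2-torsion: definitions
-/

set_option autoImplicit false

namespace Pool.Agent.U213.SM

open Finset
open Pool.Agent.TH841.SH.D (ShaTor rk)

/-- the curve `y² = x (x - A) (x - B)` over `ℚ` -/
def E (A B : ℤ) : WeierstrassCurve ℚ := ⟨0, -((A : ℚ) + B), 0, (A : ℚ) * B, 0⟩

/-- `2 ^ rank * #Ш[2]` for the elliptic curve `W` over `ℚ` (`ShaTor W 2` are the elements of the
Tate-Shafarevich group killed by `2`, `rk W` is the rank of the group of the rational points) -/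
noncomputable def M (W : WeierstrassCurve ℚ) : ℕ := 2 ^ rk W * Nat.card (ShaTor W 2)

/-- The data of a family: `F k (t) = a k * (∏ i, (γ i * t + δ i)) * ∏ i, (α k i * t + β k i)` for
`k = 0, 1, 2`, with nonzero `a k`; the `m + 3 n` linear polynomials are not constant and pairwise
non-proportional, and `F 0 - F 1 = F 2`. -/
structure Fam (n m : ℕ) where
  /-- the constant factors -/
  a : Fin 3 → ℤ
  /-- the leading coefficients of the common linear factors -/
  γ : Fin m → ℤ
  /-- the constant coefficients of the common linear factors -/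
  δ : Fin m → ℤ
  /-- the leading coefficients of the other linear factors -/
  α : Fin 3 → Fin n → ℤ
  /-- the constant coefficients of the other linear factors -/
  β : Fin 3 → Fin n → ℤ
  ha : ∀ k, a k ≠ 0
  hα : ∀ k i, α k i ≠ 0
  hγ : ∀ i, γ i ≠ 0
  h1 : ∀ k i l j, (k, i) ≠ (l, j) → α k i * β l j ≠ α l j * β k i
  h2 : ∀ i j, i ≠ j → γ i * δ j ≠ γ j * δ i
  h3 : ∀ k i j, α k i * δ j ≠ γ j * β k i
  hF : ∀ t : ℤ, a 0 * (∏ i, (γ i * t + δ i)) * ∏ i, (α 0 i * t + β 0 i) -
    a 1 * (∏ i, (γ i * t + δ i)) * ∏ i, (α 1 i * t + β 1 i) =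
    a 2 * (∏ i, (γ i * t + δ i)) * ∏ i, (α 2 i * t + β 2 i)

variable {n m : ℕ}

/-- the polynomials `F k` -/
def Fam.F (f : Fam n m) (k : Fin 3) (t : ℤ) : ℤ :=
  f.a k * (∏ i, (f.γ i * t + f.δ i)) * ∏ i, (f.α k i * t + f.β k i)

/-- the elliptic curve `E_t : y² = x (x - F 0 (t)) (x - F 1 (t))` of the family -/
def Fam.curve (f : Fam n m) (t : ℤ) : WeierstrassCurve ℚ := E (f.F 0 t) (f.F 1 t)

/-- the curve `E_t` is smooth -/
def Fam.Smooth (f : Fam n m) (t : ℤ) : Prop := ∀ k, f.F k t ≠ 0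

/-- the size `X (1 + log X) ^ (n (2 ^ r + 2 / 2 ^ r - 3))`; it is `X` for `n = 0` -/
noncomputable def S (r n X : ℕ) : ℝ :=
  (X : ℝ) * (1 + Real.log X) ^ ((n : ℝ) * (2 ^ r + 2 / 2 ^ r - 3))

/-- The data of a family of quadratic twists `D(t) y² = x (x - a) (x - b)` of a curve with full
rational 2-torsion: `D(t) = ∏ i, (γ i * t + δ i)` is a product of pairwise non-proportional linear
polynomials. -/
structure Tw (m : ℕ) where
  /-- the first parameter of the curve -/
  a : ℤ
  /-- the second parameter of the curve -/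
  b : ℤ
  /-- the leading coefficients of the linear factors -/
  γ : Fin m → ℤ
  /-- the constant coefficients of the linear factors -/
  δ : Fin m → ℤ
  ha : a ≠ 0
  hb : b ≠ 0
  hab : a ≠ b
  hγ : ∀ i, γ i ≠ 0
  h2 : ∀ i j, i ≠ j → γ i * δ j ≠ γ j * δ i

/-- `D(t) = ∏ i, (γ i * t + δ i)` -/
def Tw.D {m : ℕ} (w : Tw m) (t : ℤ) : ℤ := ∏ i, (w.γ i * t + w.δ i)

/-- the curve `y² = x (x - a D(t)) (x - b D(t))`, isomorphic to `D(t) y² = x (x - a) (x - b)` -/
def Tw.curve {m : ℕ} (w : Tw m) (t : ℤ) : WeierstrassCurve ℚ := E (w.a * w.D t) (w.b * w.D t)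

end Pool.Agent.U213.SM
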